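import Pool.Agent.Helper92.Ru.GoalsR

/-! Packet IndMul (R10) of MP_d1d051_nt: index of a product in disjoint variables. -/

set_option autoImplicit false

open MvPolynomial

namespace Pool.Agent.Helper20.Ru

open Pool.Agent.Helper92.Ru

theorem cmb_castSucc {m : ℕ} (e : Fin m →₀ ℕ) (f : Fin 1 →₀ ℕ) (h : Fin m) :
    cmb e f (Fin.castSucc h) = e h := by
  unfold cmb
  rw [Finsupp.add_apply, Finsupp.mapDomain_apply (Fin.castSucc_injective m)]
  rw [Finsupp.mapDomain_of_notMem_range]
  · simp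
  · rintro ⟨a, ha⟩
    exact (Fin.castSucc_ne_last h) ha.symm

theorem last_inj (m : ℕ) : Function.Injective (fun _ : Fin 1 => Fin.last m) := by
  intro a b _
  exact Subsingleton.elim a b

theorem cmb_last {m : ℕ} (e : Fin m →₀ ℕ) (f : Fin 1 →₀ ℕ) :
    cmb e f (Fin.last m) = f 0 := by
  unfold cmb
  rw [Finsupp.add_apply]
  have h1 : (Finsupp.mapDomain Fin.castSucc e) (Fin.last m) = 0 := by
    apply Finsupp.mapDomain_of_notMem_range
    rintro ⟨a, ha⟩
    exact (Fin.castSucc_ne_last a) ha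
  have h2 : (Finsupp.mapDomain (fun _ : Fin 1 => Fin.last m) f) (Fin.last m) = f 0 :=
    Finsupp.mapDomain_apply (last_inj m) f 0
  rw [h1, h2, zero_add]

theorem cmb_inj {m : ℕ} {e e' : Fin m →₀ ℕ} {f f' : Fin 1 →₀ ℕ} (h : cmb e f = cmb e' f') :
    e = e' ∧ f = f' := by
  constructor
  · ext i
    rw [← cmb_castSucc e f i, ← cmb_castSucc e' f' i, h]
  · refine Finsupp.ext (fun i => ?_)
    rw [Subsingleton.elim i 0, ← cmb_last e f, ← cmb_last e' f', h]

theorem coeff_UV {k : Type} [Field k] {m : ℕ} (U : MvPolynomial (Fin m) k)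
    (V : MvPolynomial (Fin 1) k) (e : Fin m →₀ ℕ) (f : Fin 1 →₀ ℕ) :
    coeff (cmb e f) (UV U V) = coeff e U * coeff f V := by
  classical
  unfold UV
  rw [coeff_mul]
  rw [Finset.sum_eq_single (e.mapDomain Fin.castSucc, f.mapDomain (fun _ => Fin.last m))]
  · simp only
    rw [coeff_rename_mapDomain _ (Fin.castSucc_injective m), coeff_rename_mapDomain _ (last_inj m)]
  · rintro ⟨x, y⟩ hxy hne
    simp only
    by_contra hcon
    have hx : coeff x (rename Fin.castSucc U) ≠ 0 := fun h0 => hcon (by rw [h0, zero_mul])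
    have hy : coeff y (rename (fun _ => Fin.last m) V) ≠ 0 :=
      fun h0 => hcon (by rw [h0, mul_zero])
    obtain ⟨e', he', _⟩ := coeff_rename_ne_zero _ _ _ hx
    obtain ⟨f', hf', _⟩ := coeff_rename_ne_zero _ _ _ hy
    have hs : x + y = cmb e f := by simpa using hxy
    have h2 : cmb e' f' = cmb e f := by
      rw [← hs, ← he', ← hf']
      rfl
    obtain ⟨h3, h4⟩ := cmb_inj h2
    apply hne
    rw [← he', ← hf', h3, h4]
  · intro h
    exact absurd (by simp [cmb]) h

theorem shiftP_UV {k : Type} [Field k] {m : ℕ} (ξ : Fin (m + 1) → k)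
    (U : MvPolynomial (Fin m) k) (V : MvPolynomial (Fin 1) k) :
    shiftP ξ (UV U V) = UV (shiftP (fun h => ξ (Fin.castSucc h)) U)
      (shiftP (fun _ => ξ (Fin.last m)) V) := by
  unfold UV
  rw [map_mul]
  congr 1
  · unfold shiftP
    rw [aeval_rename]
    have : ((rename Fin.castSucc).comp (aeval (fun h : Fin m => X h + C (ξ (Fin.castSucc h)))) :
        MvPolynomial (Fin m) k →ₐ[k] MvPolynomial (Fin (m + 1)) k) =
        aeval ((fun h => X h + C (ξ h)) ∘ Fin.castSucc) := by
      apply algHom_ext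
      intro i
      simp
    rw [← this]
    rfl
  · unfold shiftP
    rw [aeval_rename]
    have : ((rename (fun _ : Fin 1 => Fin.last m)).comp
        (aeval (fun h : Fin 1 => X h + C (ξ (Fin.last m)))) :
        MvPolynomial (Fin 1) k →ₐ[k] MvPolynomial (Fin (m + 1)) k) =
        aeval ((fun h => X h + C (ξ h)) ∘ (fun _ : Fin 1 => Fin.last m)) := by
      apply algHom_ext
      intro i
      simp
    rw [← this]
    rfl

theorem shiftP_ne_zero {k : Type} [Field k] {σ : Type} (ξ : σ → k) {p : MvPolynomial σ k}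
    (hp : p ≠ 0) : shiftP ξ p ≠ 0 := by
  intro h0
  apply hp
  have h1 : ((shiftP (fun h => - ξ h)).comp (shiftP ξ) : MvPolynomial σ k →ₐ[k] MvPolynomial σ k)
      = AlgHom.id k _ := by
    apply algHom_ext
    intro i
    simp [shiftP]
  have h2 := congrArg (fun F : MvPolynomial σ k →ₐ[k] MvPolynomial σ k => F p) h1
  simp only [AlgHom.comp_apply, AlgHom.id_apply] at h2
  rw [← h2, h0, map_zero]

theorem exists_min {k : Type} [Field k] {σ : Type} [Fintype σ] (r : σ → ℕ)
    {p : MvPolynomial σ k} (hp : p ≠ 0) :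
    ∃ e ∈ p.support, ∀ e' ∈ p.support,
      ∑ h, (e h : ℝ) / (r h : ℝ) ≤ ∑ h, (e' h : ℝ) / (r h : ℝ) := by
  have hne : p.support.Nonempty := by
    rw [Finset.nonempty_iff_ne_empty]
    intro h
    exact hp (support_eq_empty.mp h)
  exact p.support.exists_min_image (fun e => ∑ h, (e h : ℝ) / (r h : ℝ)) hne

theorem indMul : IndMul := by
  intro k _ m r ξ θ U V hU hV hI
  have hU' := shiftP_ne_zero (fun h => ξ (Fin.castSucc h)) hU
  have hV' := shiftP_ne_zero (fun _ : Fin 1 => ξ (Fin.last m)) hV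
  obtain ⟨e, he, hemin⟩ := exists_min (fun h : Fin m => r (Fin.castSucc h)) hU'
  obtain ⟨f, hf, hfmin⟩ := exists_min (fun _ : Fin 1 => r (Fin.last m)) hV'
  refine ⟨∑ h, (e h : ℝ) / (r (Fin.castSucc h) : ℝ), ∑ h, (f h : ℝ) / (r (Fin.last m) : ℝ),
    ?_, ?_, ?_, ?_, ?_⟩
  · exact Finset.sum_nonneg (fun i _ => by positivity)
  · exact Finset.sum_nonneg (fun i _ => by positivity)
  · have hmem : cmb e f ∈ (shiftP ξ (UV U V)).support := by
      rw [mem_support_iff, shiftP_UV, coeff_UV]
      exact mul_ne_zero (mem_support_iff.mp he) (mem_support_iff.mp hf)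
    have h1 := hI _ hmem
    rw [Fin.sum_univ_castSucc] at h1
    simp only [cmb_castSucc, cmb_last] at h1
    simpa using h1
  · intro e' he'
    exact hemin e' he'
  · intro f' hf'
    exact hfmin f' hf'

end Pool.Agent.Helper20.Ru
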